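import Pool.Agent.Helper155_ST.Main

/-!
# Tree property and saturated ideals: countable traces of well-orders

If the tree property holds at `ℵ₂` and there are saturated ideals on `ω₂, ..., ω_n` (for `n = 2`
these are exactly the two hypotheses of the question), then every set of well-orders of `ω_n` whose
order types are unbounded in `ω_{n+1}` has at least `ℵ_{n+1}` different traces on some countable
subset of `ω_n`.
-/

set_option autoImplicit false

namespace Pool.Agent.Results.MP_a18ac8_lc.WellOrderTraces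

open Cardinal Pool.Agent.Helper155_ST

theorem result (n : ℕ) (hn : 2 ≤ n) (hTP : TreeProperty (ℵ_ 2))
    (hI : ∀ k, 2 ≤ k → k ≤ n → SatIdeal k)
    (𝓡 : Set (Om n → Om n → Prop)) (hwo : ∀ R ∈ 𝓡, IsWellOrder (Om n) R)
    (hunb : ∀ b : Om (n + 1), ∃ R ∈ 𝓡,
      Nonempty ((fun x y : Set.Iio b => x.1 < y.1) ↪r R)) :
    ∃ s : Set (Om n), s.Countable ∧ ℵ_ ((n + 1 : ℕ) : Ordinal.{0}) ≤ #(Traces 𝓡 s) := by
  by_contra hcon
  push Not at hcon
  obtain ⟨m, rfl⟩ : ∃ m, n = m + 1 := ⟨n - 1, by omega⟩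
  have hthin : Thin (m + 1) := by
    refine ⟨𝓡, hwo, hunb, fun s hs => ?_⟩
    have h1 := hcon s hs
    rw [aleph_succ' (m + 1)] at h1
    exact Order.lt_succ_iff.1 h1
  have h1 := not_treeProperty 1 (specialTree_of_thin (thin_one m hI hthin))
  refine h1 ?_
  have h2 : ((1 + 1 : ℕ) : Ordinal.{0}) = 2 := by norm_num
  rw [h2]
  exact hTP

end Pool.Agent.Results.MP_a18ac8_lc.WellOrderTraces
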